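import Pool.Agent.X105.WK.Poly

/-!
# Asymptotics of the higher twist numbers of weaving knots

`jonesA n (m - 1)` is the Jones polynomial of the weaving knot or link `W(n+1, m)`, evaluated at
`t = A^{-4}` (`A = T 1` in the ring of Laurent polynomials with integer coefficients): the Kauffman
state sum `∑_S A^{N - 2|S|} (-A² - A⁻²)^{loops(S) - 1}` of the closure of the braid
`(σ₁ σ₂⁻¹ σ₃ ⋯ σₙ^{±1})^m`, multiplied by `(-A³)^{-w}` where `w` is the writhe. Here `S` runs through
the sets of crossings, the crossings in `S` are `B`-smoothed and the others are `A`-smoothed, and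
`loops 1 S` is the number of closed curves of the smoothed diagram, that is the number of classes
of the ends of the crossings under the relation generated by the edges of the diagram (`edge`) and
the arcs of the smoothings (`smo 1 S`).

`twist k P` is the `k`-th twist number: the exponents of `t` in steps of `1` are the exponents of
`A` in steps of `4`.

For every `n ≥ 2` and every `k ≥ 1`, with `d = (1 - (-1)^n)/2` and `r = (n - d)/2`, the ratio of
`T_k(W(n+1, m))` and `((r + d)^k + r^k) m^k / k!` tends to `1` as `m → ∞`.
-/

set_option autoImplicit false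

namespace Pool.Agent.Results.MP_592c03_gt.TwistNumbersWeaving

open Filter Topology Pool.Agent.X105.WK

theorem result : ∀ n k : ℕ, 2 ≤ n → 1 ≤ k → ∀ d r : ℝ,
    d = (1 - (-1) ^ n) / 2 → r = (n - d) / 2 →
    Tendsto (fun m : ℕ => (twist k (jonesA n (m - 1)) : ℝ) /
      ((((r + d) ^ k + r ^ k) * (m : ℝ) ^ k) / (k.factorial : ℝ))) atTop (𝓝 1) :=
  fun n k hn hk d r hd hr => main n k hn hk d r hd hr

end Pool.Agent.Results.MP_592c03_gt.TwistNumbersWeaving
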